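import Mathlib

set_option autoImplicit false

namespace Pool.Agent.Results.MP_053bca_co.AllOdd

universe u

/-- a chain whose symbols miss exactly one element -/
def Adm (G : Type u) [Group G] : Prop :=
  ∃ (θ : Equiv.Perm G) (b : G), Set.range (fun x => x * θ x) = {b}ᶜ

theorem sq_inj {G : Type u} [Group G] (hodd : Odd (Nat.card G)) {x y : G} (h : x * x = y * y) :
    x = y := by
  have hc : (Nat.card G).Coprime 2 := hodd.coprime_two_right
  apply hc.pow_left_bijective.1
  simpa [pow_two] using h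

theorem sq_surj {G : Type u} [Group G] (hodd : Odd (Nat.card G)) (y : G) : ∃ x, x * x = y := by
  have hc : (Nat.card G).Coprime 2 := hodd.coprime_two_right
  obtain ⟨x, hx⟩ := hc.pow_left_bijective.2 y
  exact ⟨x, by simpa [pow_two] using hx⟩

theorem extend {G : Type u} [Group G] (hodd : Odd (Nat.card G)) (K : Subgroup G) (h : Adm K) :
    Adm G := by
  classical
  have hK : Odd (Nat.card K) := Odd.of_dvd_nat hodd (Subgroup.card_subgroup_dvd_card K)
  obtain ⟨θ, b, hθ⟩ := h
  have sqK : ∀ x : G, x * x ∈ K → x ∈ K := by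
    intro x hx
    obtain ⟨z, hz⟩ := sq_surj hK ⟨_, hx⟩
    have : (z : G) * z = x * x := congrArg Subtype.val hz
    rw [← sq_inj hodd this]
    exact z.2
  refine ⟨Equiv.Perm.ofSubtype θ, b, ?_⟩
  ext y
  simp only [Set.mem_range, Set.mem_compl_iff, Set.mem_singleton_iff]
  constructor
  · rintro ⟨x, rfl⟩ e
    by_cases hx : x ∈ K
    · rw [Equiv.Perm.ofSubtype_apply_of_mem θ hx] at e
      have : (⟨x, hx⟩ * θ ⟨x, hx⟩ : K) ∈ ({b}ᶜ : Set K) := hθ ▸ ⟨⟨x, hx⟩, rfl⟩
      exact this (Subtype.ext e)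
    · rw [Equiv.Perm.ofSubtype_apply_of_not_mem θ hx] at e
      exact hx (sqK x (e ▸ b.2))
  · intro hy
    by_cases hyK : y ∈ K
    · have : (⟨y, hyK⟩ : K) ∈ Set.range (fun x => x * θ x) := by
        rw [hθ]
        intro e
        exact hy (congrArg Subtype.val e)
      obtain ⟨x, hx⟩ := this
      refine ⟨x, ?_⟩
      rw [Equiv.Perm.ofSubtype_apply_of_mem θ x.2]
      exact congrArg Subtype.val hx
    · obtain ⟨x, hx⟩ := sq_surj hodd y
      have : x ∉ K := fun h => hyK (hx ▸ K.mul_mem h h)
      exact ⟨x, by rw [Equiv.Perm.ofSubtype_apply_of_not_mem θ this, hx]⟩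

theorem structure_lemma {G : Type u} [Group G] [Finite G] (hna : ∃ a b : G, a * b ≠ b * a)
    (hab : ∀ K : Subgroup G, K ≠ ⊤ → ∀ x ∈ K, ∀ y ∈ K, x * y = y * x) :
    ∃ A : Subgroup G, A.Normal ∧ A ≠ ⊤ ∧ ∃ b ∈ A, ∃ s, s * b ≠ b * s := by
  by_contra hcon
  push Not at hcon
  obtain ⟨a0, b0, hab0⟩ := hna
  have hnt : Nontrivial G := ⟨a0 * b0, b0 * a0, hab0⟩
  have h1 : Nat.card G ≠ 1 := (Finite.one_lt_card (α := G)).ne'
  let p := (Nat.card G).minFac
  have : Fact p.Prime := ⟨Nat.minFac_prime h1⟩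
  let P : Sylow p G := default
  by_cases hP : (P : Subgroup G) = ⊤
  · have hpG : IsPGroup p G := by
      have := P.isPGroup'
      rw [hP] at this
      exact this.of_equiv Subgroup.topEquiv
    have := hpG.isNilpotent
    obtain ⟨M, hM, _⟩ := (eq_top_or_exists_le_coatom (⊥ : Subgroup G)).resolve_left bot_ne_top
    have hN : M.Normal :=
      Subgroup.NormalizerCondition.normal_of_coatom M Group.normalizerCondition_of_isNilpotent
        hM
    have hc := hcon M hN hM.1
    apply hab0
    by_cases ha : b0 ∈ M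
    · exact hc b0 ha a0
    · have : Subgroup.centralizer {b0} = ⊤ := by
        apply hM.2
        refine lt_of_le_of_ne ?_ ?_
        · intro m hm
          rw [Subgroup.mem_centralizer_singleton_iff]
          exact (hc m hm b0).symm
        · intro e
          apply ha
          rw [e, Subgroup.mem_centralizer_singleton_iff]
      have h2 : a0 ∈ Subgroup.centralizer {b0} := this ▸ Subgroup.mem_top a0
      exact Subgroup.mem_centralizer_singleton_iff.mp h2
  · have hNC : Subgroup.normalizer (P : Set G) ≤ Subgroup.centralizer (P : Set G) := by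
      intro s hs
      rw [Subgroup.mem_centralizer_iff]
      intro b hb
      by_cases ht : Subgroup.normalizer (P : Set G) = ⊤
      · exact (hcon P (Subgroup.normalizer_eq_top_iff.mp ht) hP b hb s).symm
      · exact hab _ ht b (Subgroup.le_normalizer hb) s hs
    have hcomp := MonoidHom.ker_transferSylow_isComplement' P hNC
    have hK : (MonoidHom.transferSylow P hNC).ker ≠ ⊤ := by
      intro e
      have hd := hcomp.disjoint
      rw [e, top_disjoint] at hd
      exact P.ne_bot_of_dvd_card (Nat.minFac_dvd _) hd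
    have hc := hcon _ inferInstance hK
    apply hab0
    obtain ⟨⟨⟨k, hk⟩, ⟨x, hx⟩⟩, e1⟩ := hcomp.2 a0
    obtain ⟨⟨⟨l, hl⟩, ⟨y, hy⟩⟩, e2⟩ := hcomp.2 b0
    simp only at e1 e2
    rw [← e1, ← e2]
    have c1 := hab _ hP x hx y hy
    calc k * x * (l * y) = k * (x * l) * y := by group
      _ = k * l * (x * y) := by rw [hc l hl x]; group
      _ = l * k * (y * x) := by rw [c1, hc l hl k]
      _ = l * (k * y) * x := by group
      _ = l * y * (k * x) := by rw [← hc k hk y]; group

theorem construct {G : Type u} [Group G] [Finite G] (hodd : Odd (Nat.card G)) (A : Subgroup G)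
    [hA : A.Normal] (hcomm : ∀ x ∈ A, ∀ y ∈ A, x * y = y * x) (b : G) (hb : b ∈ A) (s : G)
    (hs : s * b ≠ b * s) : Adm G := by
  classical
  let π : G →* G ⧸ A := QuotientGroup.mk' A
  have hker : ∀ x, π x = 1 ↔ x ∈ A := fun x => QuotientGroup.eq_one_iff x
  have hQ : Odd (Nat.card (G ⧸ A)) :=
    Odd.of_dvd_nat hodd (Subgroup.card_quotient_dvd_card A)
  have hq1 : orderOf (π s) ≠ 1 := by
    intro e
    exact hs (hcomm s ((hker s).mp (orderOf_eq_one_iff.mp e)) b hb)
  have hq2 : Odd (orderOf (π s)) := Odd.of_dvd_nat hQ (orderOf_dvd_natCard _)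
  obtain ⟨t, ht⟩ : ∃ t, orderOf (π s) = t + 3 := by
    obtain ⟨r, hr⟩ := hq2
    exact ⟨orderOf (π s) - 3, by omega⟩
  have hsq : s ^ (t + 3) ∈ A := by
    rw [← hker, map_pow, ← ht, pow_orderOf_eq_one]
  have hπb : π b = 1 := (hker b).mpr hb
  have hlast : (π s) ^ (t + 2) = (π s)⁻¹ := by
    rw [eq_inv_iff_mul_eq_one, ← pow_succ, ← ht, pow_orderOf_eq_one]
  let R : Fin (t + 3) → G := fun j => if j.val = t + 2 then s⁻¹ * s⁻¹ * b * s else s ^ j.val
  let C : Fin (t + 3) → G := fun j => if j.val = 0 then b else s ^ j.val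
  have hR : ∀ j, π (R j) = π s ^ j.val := by
    intro j
    simp only [R]
    split_ifs with h
    · rw [h, hlast]
      simp [hπb]
    · simp
  have hC : ∀ j, π (C j) = π s ^ j.val := by
    intro j
    simp only [C]
    split_ifs with h
    · rw [h, hπb, pow_zero]
    · simp
  have hinj : ∀ i j : Fin (t + 3), π s ^ i.val = π s ^ j.val → i = j := by
    intro i j h
    apply Fin.ext
    exact pow_injOn_Iio_orderOf (by rw [ht]; exact i.2) (by rw [ht]; exact j.2) h
  have hRinj : Function.Injective R := fun i j h => hinj i j (by rw [← hR, ← hR, h])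
  let U : G ⧸ A → G := fun z =>
    if h : ∃ j : Fin (t + 3), π s ^ j.val = z then C h.choose * (R h.choose)⁻¹ else 1
  have hU : ∀ z, π (U z) = 1 := by
    intro z
    simp only [U]
    split_ifs with h
    · rw [map_mul, map_inv, hC, hR, mul_inv_cancel]
    · simp
  have hUR : ∀ j, U (π (R j)) * R j = C j := by
    intro j
    have h : ∃ i : Fin (t + 3), π s ^ i.val = π (R j) := ⟨j, (hR j).symm⟩
    have e : h.choose = j := hinj _ _ (by rw [h.choose_spec, hR])
    simp only [U, dif_pos h, e]
    group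
  have h0inj : Function.Injective (fun x => U (π x) * x) := by
    intro x y h
    have h1 := congrArg π h
    simp only [map_mul, hU, one_mul] at h1
    simp only [h1] at h
    exact mul_left_cancel h
  let θ0 : Equiv.Perm G := Equiv.ofBijective _ (Finite.injective_iff_bijective.mp h0inj)
  have hθ0 : ∀ x, θ0 x = U (π x) * x := fun _ => rfl
  have ψinj : Function.Injective (fun x => x * θ0 x) := by
    intro x y h
    simp only [hθ0] at h
    have h1 := congrArg π h
    simp only [map_mul, hU, one_mul] at h1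
    have h2 := sq_inj hQ h1
    rw [h2] at h
    have h3 : x * U (π y) * (x * U (π y)) = y * U (π y) * (y * U (π y)) := by
      calc x * U (π y) * (x * U (π y)) = x * (U (π y) * x) * U (π y) := by group
        _ = _ := by rw [h]; group
    exact mul_right_cancel (sq_inj hodd h3)
  let ρ : Equiv.Perm G := (Equiv.addRight (2 : Fin (t + 3))).viaEmbedding ⟨R, hRinj⟩
  have hρ1 : ∀ j, ρ (R j) = R (j + 2) := fun j =>
    Equiv.Perm.viaEmbedding_apply _ ⟨R, hRinj⟩ j
  have hρ2 : ∀ x, x ∉ Set.range R → ρ x = x := fun x hx =>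
    Equiv.Perm.viaEmbedding_apply_of_notMem _ ⟨R, hRinj⟩ x hx
  have v2 : (2 : Fin (t + 3)).val = 2 := rfl
  have v1 : (1 : Fin (t + 3)).val = 1 := rfl
  have key : ∀ j : Fin (t + 3), j.val ≠ t + 2 → R j * C (j + 2) = R (j + 1) * C (j + 1) := by
    intro j hj
    have hj' := j.2
    have e1 : (j + 1).val = j.val + 1 := by
      rw [Fin.val_add, v1, Nat.mod_eq_of_lt (by omega)]
    by_cases h : j.val = t + 1
    · have e2 : (j + 2).val = 0 := by
        rw [Fin.val_add, v2, h, Nat.mod_self]
      simp only [R, C, e1, e2, h]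
      rw [if_neg (by omega), if_pos trivial, if_pos trivial, if_neg (by omega)]
      have c := hcomm _ hsq b hb
      calc s ^ (t + 1) * b = s⁻¹ * s⁻¹ * (s ^ (t + 3) * b) := by group
        _ = _ := by rw [c]; group
    · have e2 : (j + 2).val = j.val + 2 := by
        rw [Fin.val_add, v2, Nat.mod_eq_of_lt (by omega)]
      simp only [R, C, e1, e2]
      rw [if_neg hj, if_neg (by omega), if_neg (by omega), if_neg (by omega)]
      group
  have key2 : ∀ j : Fin (t + 3), j.val = t + 2 → R j * C (j + 2) ≠ b := by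
    intro j hj
    have e2 : (j + 2).val = 1 := by
      rw [Fin.val_add, v2, hj, show t + 2 + 2 = 1 + (t + 3) by ring, Nat.add_mod_right,
        Nat.mod_eq_of_lt (by omega)]
    simp only [R, C, e2, hj]
    rw [if_pos trivial, if_neg (by omega)]
    intro e
    apply hs
    have h1 : b⁻¹ * s * b * (b⁻¹ * s * b) = s * s := by
      calc b⁻¹ * s * b * (b⁻¹ * s * b) = b⁻¹ * s * s * b := by group
        _ = b⁻¹ * s * s * (s⁻¹ * s⁻¹ * b * s * s ^ 1) := by rw [e]
        _ = s ^ 2 := by group
        _ = s * s := pow_two s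
    have h2 := sq_inj hodd h1
    calc s * b = b * (b⁻¹ * s * b) := by group
      _ = b * s := by rw [h2]
  have hb0 : R 0 * θ0 (R 0) = b := by
    rw [hθ0, hUR]
    simp [R, C]
  refine ⟨ρ.trans θ0, b, ?_⟩
  ext y
  simp only [Set.mem_range, Set.mem_compl_iff, Set.mem_singleton_iff, Equiv.trans_apply]
  constructor
  · rintro ⟨x, rfl⟩ e
    by_cases hx : x ∈ Set.range R
    · obtain ⟨j, rfl⟩ := hx
      rw [hρ1, hθ0, hUR] at e
      by_cases hj : j.val = t + 2
      · exact key2 j hj e
      · rw [key j hj, ← hUR, ← hθ0, ← hb0] at e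
        have h3 := congrArg Fin.val (hRinj (ψinj e))
        have hj' := j.2
        rw [Fin.val_add, v1, Nat.mod_eq_of_lt (by omega)] at h3
        simp at h3
    · rw [hρ2 x hx, ← hb0] at e
      exact hx ⟨0, (ψinj e).symm⟩
  · intro hy
    obtain ⟨x, hx⟩ := Finite.injective_iff_surjective.mp ψinj y
    simp only at hx
    by_cases hx' : x ∈ Set.range R
    · obtain ⟨j, rfl⟩ := hx'
      have hj0 : j ≠ 0 := by
        rintro rfl
        exact hy (hx.symm.trans hb0)
      have hj1 : (j - 1).val ≠ t + 2 := by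
        intro e
        apply hj0
        have : j = (j - 1) + 1 := (sub_add_cancel j 1).symm
        apply Fin.ext
        rw [this, Fin.val_add, e, v1, Nat.mod_self]
        rfl
      refine ⟨R (j - 1), ?_⟩
      rw [hρ1, hθ0, hUR, key _ hj1, sub_add_cancel, ← hx, hθ0, hUR]
    · exact ⟨x, by rw [hρ2 x hx', hx]⟩

theorem adm_all : ∀ (n : ℕ) (G : Type u) [Group G] [Finite G], Nat.card G = n →
    Odd (Nat.card G) → (∃ a b : G, a * b ≠ b * a) → Adm G := by
  intro n
  induction n using Nat.strong_induction_on with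
  | _ n ih =>
    intro G _ _ hn hodd hna
    by_cases h : ∀ K : Subgroup G, K ≠ ⊤ → ∀ x ∈ K, ∀ y ∈ K, x * y = y * x
    · obtain ⟨A, hA, hne, b, hb, s, hs⟩ := structure_lemma hna h
      exact construct hodd A (h A hne) b hb s hs
    · push Not at h
      obtain ⟨K, hK, x, hx, y, hy, hxy⟩ := h
      apply extend hodd K
      refine ih (Nat.card K) ?_ K rfl
        (Odd.of_dvd_nat hodd (Subgroup.card_subgroup_dvd_card K))
        ⟨⟨x, hx⟩, ⟨y, hy⟩, fun e => hxy (congrArg Subtype.val e)⟩
      rw [← hn]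
      exact lt_of_le_of_ne (Subgroup.card_le_card_group K)
        (fun e => hK (Subgroup.eq_top_of_card_eq K e))

theorem result (G : Type u) [Group G] [Finite G] (hodd : Odd (Nat.card G))
    (hna : ∃ a b : G, a * b ≠ b * a) :
    ∃ θ : Equiv.Perm G, (Set.range (fun x => x * θ x)).ncard = Nat.card G - 1 := by
  obtain ⟨θ, b, h⟩ := adm_all _ G rfl hodd hna
  refine ⟨θ, ?_⟩
  rw [h, Set.ncard_compl, Set.ncard_singleton]

end Pool.Agent.Results.MP_053bca_co.AllOdd
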